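import Mathlib

set_option autoImplicit false

namespace Pool.Agent.H.MP_189718_gt

open Cardinal hiding univ
open Set Topology Filter OnePoint

def al : ℕ → Type
  | 0 => ℕ
  | n + 1 => Set (Ultrafilter (al n))

abbrev Z : Type := Σ n : ℕ, Ultrafilter (al n)
abbrev II : Type := Σ n : ℕ, al n

lemma fib_compact (n : ℕ) : IsCompact (range (fun u : Ultrafilter (al n) => (⟨n, u⟩ : Z))) :=
  isCompact_range (continuous_sigmaMk (σ := fun n => Ultrafilter (al n)))

instance : WeaklyLocallyCompactSpace Z where
  exists_compact_mem_nhds x :=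
    ⟨range (Sigma.mk x.1), fib_compact _, isOpen_range_sigmaMk.mem_nhds ⟨x.2, rfl⟩⟩

abbrev K : Type := OnePoint Z

lemma small (n : ℕ) : #(Ultrafilter (al n)) < #II := by
  have h1 : #(Ultrafilter (al n)) < #(al (n + 1)) := by
    show _ < #(Set (Ultrafilter (al n)))
    rw [mk_set]; exact cantor _
  exact h1.trans_le (mk_le_of_injective (f := fun a => (⟨n + 1, a⟩ : II)) sigma_mk_injective)

lemma unc : ℵ₀ < #II := by
  refine lt_of_le_of_lt ?_ (small 0)
  have : #ℕ ≤ #(Ultrafilter (al 0)) :=
    mk_le_of_injective (f := fun a : ℕ => (pure a : Ultrafilter ℕ)) Ultrafilter.pure_injective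
  simpa using this

lemma low_compact (N : ℕ) : IsCompact {z : Z | z.1 < N} := by
  have : {z : Z | z.1 < N} = ⋃ n ∈ Iio N, range (Sigma.mk n) := by
    ext ⟨m, z⟩
    simp only [mem_iUnion, mem_range, mem_Iio]
    constructor
    · intro h; exact ⟨m, h, z, rfl⟩
    · rintro ⟨n, hn, w, h⟩
      have : n = m := congrArg Sigma.fst h
      exact this ▸ hn
  rw [this]
  exact (finite_Iio N).isCompact_biUnion fun n _ => fib_compact n

lemma tend_fst : Tendsto (fun z : Z => z.1) (coclosedCompact Z) atTop := by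
  rw [tendsto_atTop]
  intro N
  rw [coclosedCompact_eq_cocompact]
  refine mem_cocompact.2 ⟨_, low_compact N, fun z hz => ?_⟩
  exact not_lt.1 (show ¬ z.1 < N from hz)

lemma tend_inf (x : ℕ → Z) (h : Tendsto (fun j => (x j).1) atTop atTop) :
    Tendsto (fun j => (x j : K)) atTop (𝓝 ∞) := by
  refine tendsto_coe_infty.comp ?_
  rw [coclosedCompact_eq_cocompact, hasBasis_cocompact.tendsto_right_iff]
  intro C hC
  obtain ⟨N, hN⟩ : BddAbove ((fun z : Z => z.1) '' C) :=
    (hC.image (continuous_sigma fun n => continuous_const (y := n))).bddAbove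
  filter_upwards [h.eventually (eventually_gt_atTop N)] with j hj hc
  exact absurd (hN ⟨_, hc, rfl⟩) (not_le.2 hj)

lemma surj : ∃ φ : {f : K → ℝ // Continuous f} → (II → unitInterval),
    Continuous φ ∧ Function.Surjective φ := by
  refine ⟨fun f i => projIcc 0 1 zero_le_one
    (((i.1 : ℝ) + 1) * f.1 ((⟨i.1, pure i.2⟩ : Z) : K)), ?_, fun t => ?_⟩
  · exact continuous_pi fun i => continuous_projIcc.comp
      (continuous_const.mul ((continuous_apply _).comp continuous_subtype_val))
  · let g : Z → ℝ := fun z =>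
      1 / ((z.1 : ℝ) + 1) * (Ultrafilter.extend (fun a => t ⟨z.1, a⟩) z.2 : unitInterval)
    have hg : Continuous g := continuous_sigma fun n =>
      (continuous_const (y := 1 / ((n : ℝ) + 1))).mul (continuous_subtype_val.comp
        (continuous_ultrafilter_extend (fun a => t ⟨n, a⟩)))
    refine ⟨⟨fun y : K => y.elim 0 g, ?_⟩, ?_⟩
    · rw [OnePoint.continuous_iff]
      refine ⟨?_, hg⟩
      refine squeeze_zero (f := g) (fun z => mul_nonneg (by positivity) (unitInterval.nonneg _))
        (fun z => mul_le_of_le_one_right (by positivity) (unitInterval.le_one _))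
        (tendsto_one_div_add_atTop_nhds_zero_nat.comp tend_fst)
    · funext i
      have : ((i.1 : ℝ) + 1) * g ⟨i.1, pure i.2⟩ = t i := by
        simp only [g, ultrafilter_extend_pure]
        field_simp
      show projIcc 0 1 zero_le_one (((i.1 : ℝ) + 1) * g ⟨i.1, pure i.2⟩) = t i
      rw [this, projIcc_val]

lemma low_small (N : ℕ) : #({z : Z | z.1 < N}) < #II := by
  induction N with
  | zero => simpa using aleph0_pos.trans unc
  | succ N ih =>
    have : {z : Z | z.1 < N + 1} ⊆ {z : Z | z.1 < N} ∪ range (Sigma.mk N) := by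
      rintro ⟨m, z⟩ h
      rcases Nat.lt_succ_iff_lt_or_eq.1 h with h | h
      · exact Or.inl h
      · right
        have h' : m = N := h
        subst h'
        exact ⟨z, rfl⟩
    exact ((mk_le_mk_of_subset this).trans (mk_union_le _ _)).trans_lt
      (add_lt_of_lt unc.le ih (mk_range_le.trans_lt (small N)))

lemma no_set (D : Set K) (hD : DiscreteTopology D) (hc : #D = #II)
    (h : ∀ g : D → ℝ, Continuous g → (∃ M : ℝ, ∀ x : D, |g x| ≤ M) →
      ∃ G : K → ℝ, Continuous G ∧ ∀ x : D, G (x : K) = g x) : False := by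
  classical
  have h1 : ∀ N : ℕ, ∃ z : Z, (z : K) ∈ D ∧ N ≤ z.1 := by
    intro N
    by_contra hcon
    push Not at hcon
    have : D ⊆ insert ∞ ((↑) '' {z : Z | z.1 < N}) := by
      intro x hx
      induction x using OnePoint.rec with
      | infty => exact Or.inl rfl
      | coe z => exact Or.inr ⟨z, hcon z hx, rfl⟩
    have h2 := (mk_le_mk_of_subset this).trans mk_insert_le
    rw [hc] at h2
    exact absurd h2 (not_le.2 (add_lt_of_lt unc.le (mk_image_le.trans_lt (low_small N))
      (one_lt_aleph0.trans unc)))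
  choose z hz hz' using h1
  let x : ℕ → Z := fun j => Nat.rec (z 0) (fun _ y => z (y.1 + 1)) j
  have hx : StrictMono fun j => (x j).1 := strictMono_nat_of_lt_succ fun j => hz' _
  have hxD : ∀ j, OnePoint.some (x j) ∈ D := by
    intro j
    cases j with
    | zero => exact hz _
    | succ j => exact hz _
  obtain ⟨G, hG, hG'⟩ := h (fun y => if ∃ j, (y : K) = OnePoint.some (x (2 * j)) then 1 else 0)
    continuous_of_discreteTopology ⟨1, fun y => by split_ifs <;> simp⟩
  have t := (hG.tendsto ∞).comp (tend_inf x hx.tendsto_atTop)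
  have t0 := t.comp (tendsto_id.const_mul_atTop' (r := 2) (by norm_num))
  have t1 := t.comp ((tendsto_add_atTop_nat 1).comp
    (tendsto_id.const_mul_atTop' (r := 2) (by norm_num)))
  have e0 : G ∞ = 1 := by
    refine tendsto_nhds_unique t0 (tendsto_const_nhds.congr fun j => ?_)
    exact ((hG' ⟨_, hxD (2 * j)⟩).trans (if_pos ⟨j, rfl⟩)).symm
  have e1 : G ∞ = 0 := by
    refine tendsto_nhds_unique t1 (tendsto_const_nhds.congr fun j => ?_)
    refine ((hG' ⟨_, hxD (2 * j + 1)⟩).trans (if_neg ?_)).symm
    rintro ⟨k, hk⟩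
    have hk' : x (2 * j + 1) = x (2 * k) := OnePoint.coe_injective hk
    have : 2 * j + 1 = 2 * k := hx.injective (a₁ := 2*j+1) (a₂ := 2*k) (congrArg Sigma.fst hk')
    omega
  linarith

end Pool.Agent.H.MP_189718_gt
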